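import Mathlib
import Pool.Agent.PSF.FO

/-!
# The Henson graphs are pseudofinite

For all `n > 2` and `k` there is a finite graph omitting `K_n` that satisfies all extension axioms with at most `k`
parameters. Hence the Henson graph `H_n` (the countable homogeneous graph that is universal for the countable graphs
omitting `K_n`), and every other graph that omits `K_n` and satisfies all extension axioms, is pseudofinite.

Construction. A datum `x` has a colour `x.col`, and for every index `a < k` a required type `x.typ a` and `d` tests
`x.tst a j`. It dominates `y` if the colours differ and for some `a` the type of `y` is `x.typ a` and `y` passes all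
tests `x.tst a j`. The tests ask for bits of the codes of the tests of `y`, or for the required types of `y`; since a
test of `y` can be certified by the few bits of its code, a new datum can certify why two given data are not joined.
-/

set_option autoImplicit false

open FirstOrder

namespace Pool.Agent.Results.MP_e04924_lc.HensonPseudofinite

open Pool.Agent.PSF

theorem result : ∀ n : ℕ, 2 < n →
    (∀ k : ℕ, ∃ (N : ℕ) (H : SimpleGraph (Fin N)), H.CliqueFree n ∧ Ext n k H) ∧
    (∀ (V : Type) (G : SimpleGraph V), G.CliqueFree n → (∀ k, Ext n k G) →
      @Pseudofinite Language.graph V G.structure) ∧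
    (∀ (V : Type) (G : SimpleGraph V), IsHenson n G →
      @Pseudofinite Language.graph V G.structure) := by
  intro n hn
  refine ⟨?_, ?_, ?_⟩
  · intro k
    classical
    obtain ⟨W, hW, G, hG, hE⟩ := finite_extension n k (by omega)
    have := Fintype.ofFinite W
    let e : Fin (Fintype.card W) ≃ W := (Fintype.equivFin W).symm
    refine ⟨Fintype.card W, G.comap e, ?_, ?_⟩
    · intro s hs
      refine hG (s.map e.toEmbedding) ⟨?_, ?_⟩
      · intro x hx y hy hxy
        rw [Finset.mem_coe, Finset.mem_map] at hx hy
        obtain ⟨x', hx', rfl⟩ := hx
        obtain ⟨y', hy', rfl⟩ := hy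
        exact hs.isClique hx' hy' (fun h => hxy (congrArg e h))
      · rw [Finset.card_map, hs.card_eq]
    · intro U V hdis hUV hU
      obtain ⟨w, hwU, hwV, h1, h2⟩ := hE (U.map e.toEmbedding) (V.map e.toEmbedding)
        (by rw [Finset.disjoint_map]; exact hdis)
        (by rw [Finset.card_map, Finset.card_map]; exact hUV)
        (by
          intro s hs hcl
          refine hU (s.map e.symm.toEmbedding) ?_ ⟨?_, ?_⟩
          · intro x hx
            obtain ⟨y, hy, rfl⟩ := Finset.mem_map.1 hx
            obtain ⟨z, hz, rfl⟩ := Finset.mem_map.1 (hs hy)
            simpa using hz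
          · intro x hx y hy hxy
            rw [Finset.mem_coe, Finset.mem_map] at hx hy
            obtain ⟨x', hx', rfl⟩ := hx
            obtain ⟨y', hy', rfl⟩ := hy
            show G.Adj (e (e.symm x')) (e (e.symm y'))
            rw [e.apply_symm_apply, e.apply_symm_apply]
            exact hcl.isClique hx' hy' (fun h => hxy (congrArg e.symm h))
          · rw [Finset.card_map, hcl.card_eq])
      refine ⟨e.symm w, ?_, ?_, ?_, ?_⟩
      · intro h
        apply hwU
        have := Finset.mem_map_of_mem e.toEmbedding h
        simpa using this
      · intro h
        apply hwV
        have := Finset.mem_map_of_mem e.toEmbedding h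
        simpa using this
      · intro u hu
        show G.Adj (e (e.symm w)) (e u)
        rw [e.apply_symm_apply]
        exact h1 (e u) (Finset.mem_map_of_mem e.toEmbedding hu)
      · intro v hv
        show ¬ G.Adj (e (e.symm w)) (e v)
        rw [e.apply_symm_apply]
        exact h2 (e v) (Finset.mem_map_of_mem e.toEmbedding hv)
  · intro V G hG hE
    exact pseudofinite_of_ext hn G hG hE
  · intro V G hG
    exact pseudofinite_of_ext hn G hG.cliqueFree (fun k => hG.ext k)

end Pool.Agent.Results.MP_e04924_lc.HensonPseudofinite
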